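import Pool.Agent.Y691.ST.PermFin

/-!
# Subgroups which are extensions of a `p`-group by a cyclic group, and moved cosets
-/

set_option autoImplicit false

namespace Pool.Agent.Y240.ST

open Pool.Agent.Y691.ST Pool.Agent.Y144.DL

lemma mem_of_pow_mem {G : Type*} [Group G] {C : Subgroup G} {t : G} {m k : ℕ}
    (hc : Nat.Coprime k m) (hm : t ^ m = 1) (hk : t ^ k ∈ C) : t ∈ C := by
  obtain ⟨a, b, hab⟩ := Nat.isCoprime_iff_coprime.mpr hc
  have h1 : t = (t ^ k) ^ a * (t ^ m) ^ b := by
    rw [← zpow_natCast t k, ← zpow_natCast t m, ← zpow_mul, ← zpow_mul, ← zpow_add,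
      mul_comm (k : ℤ), mul_comm (m : ℤ), hab, zpow_one]
  rw [h1, hm, one_zpow, mul_one]
  exact C.zpow_mem hk a

lemma index_ge {A : Type} [CommGroup A] [Finite A] {m p : ℕ} (hm : 0 < m)
    (hcop : Nat.Coprime p m) (S : Subgroup A) (hS : ∀ x ∈ S, x ^ m = 1)
    (hcard : m * m ≤ Nat.card S) {T : Subgroup A} (hT : CycHyp p T) : m ≤ T.index := by
  classical
  obtain ⟨C, hCT, hC, hn, hpow⟩ := hT
  have := Fintype.ofFinite C
  have h1 : ∀ x ∈ T, x ∈ S → x ∈ C := by
    intro x hxT hxS
    obtain ⟨j, hj⟩ := hpow x hxT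
    exact mem_of_pow_mem (hcop.pow_left j) (hS x hxS) hj
  have h2 : Nat.card (T.subgroupOf S) ≤ m := by
    have h3 := IsCyclic.card_pow_eq_one_le (α := C) hm
    refine le_trans ?_ h3
    rw [← Fintype.card_coe, ← Nat.card_eq_fintype_card]
    let F : T.subgroupOf S → {a : C // a ∈ (Finset.univ.filter fun a : C => a ^ m = 1)} :=
      fun x => ⟨⟨((x : S) : A), h1 _ x.2 (x : S).2⟩, by
        rw [Finset.mem_filter]
        exact ⟨Finset.mem_univ _, Subtype.ext (hS _ (x : S).2)⟩⟩
    refine Nat.card_le_card_of_injective F ?_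
    intro x y hxy
    apply Subtype.ext
    apply Subtype.ext
    exact congrArg (fun z => ((z.1 : C) : A)) hxy
  have h3 : T.relIndex S ∣ T.index := Subgroup.relIndex_dvd_index_of_normal T S
  have h4 : Nat.card (T.subgroupOf S) * (T.subgroupOf S).index = Nat.card S :=
    Subgroup.card_mul_index _
  have h5 : T.index ≠ 0 := Subgroup.index_ne_zero_of_finite
  have h6 : T.relIndex S ≤ T.index := Nat.le_of_dvd (Nat.pos_of_ne_zero h5) h3
  have h7 : m * m ≤ m * T.relIndex S := by
    calc m * m ≤ Nat.card S := hcard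
      _ = Nat.card (T.subgroupOf S) * (T.subgroupOf S).index := h4.symm
      _ ≤ m * T.relIndex S := Nat.mul_le_mul_right _ h2
  exact (Nat.le_of_mul_le_mul_left h7 hm).trans h6

open Equiv in
lemma exists_swap_not_mem {p : ℕ} (hp : p.Prime) {T : Subgroup (Perm (Fin 5))}
    (hT : CycHyp p T) : ∃ a b : Fin 5, a ≠ b ∧ swap a b ∉ T := by
  by_contra hno
  push Not at hno
  obtain ⟨C, hCT, hC, hn, hpow⟩ := hT
  have hcomm : ∀ x ∈ C, ∀ y ∈ C, x * y = y * x := by
    intro x hx y hy
    let := hC.commGroup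
    exact congrArg Subtype.val (mul_comm (⟨x, hx⟩ : C) ⟨y, hy⟩)
  by_cases h3 : p = 3
  · subst h3
    have key : ∀ t ∈ T, t ^ 5 = 1 → t ∈ C := by
      intro t ht h5
      obtain ⟨j, hj⟩ := hpow t ht
      exact mem_of_pow_mem ((by norm_num : Nat.Coprime 3 5).pow_left j) h5 hj
    have hy1 : swap (0 : Fin 5) 1 * swap 1 2 * swap 2 3 * swap 3 4 ∈ C := by
      refine key _ (T.mul_mem (T.mul_mem (T.mul_mem (hno _ _ ?_) (hno _ _ ?_)) (hno _ _ ?_))
        (hno _ _ ?_)) ?_ <;> decide
    have hy2 : swap (0 : Fin 5) 1 * swap 1 2 * swap 2 4 * swap 4 3 ∈ C := by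
      refine key _ (T.mul_mem (T.mul_mem (T.mul_mem (hno _ _ ?_) (hno _ _ ?_)) (hno _ _ ?_))
        (hno _ _ ?_)) ?_ <;> decide
    have := hcomm _ hy1 _ hy2
    revert this
    decide
  · have key : ∀ t ∈ T, t ^ 3 = 1 → t ∈ C := by
      intro t ht h5
      obtain ⟨j, hj⟩ := hpow t ht
      exact mem_of_pow_mem (((Nat.coprime_primes hp Nat.prime_three).mpr h3).pow_left j) h5 hj
    have hy1 : swap (0 : Fin 5) 1 * swap 1 2 ∈ C := by
      refine key _ (T.mul_mem (hno _ _ ?_) (hno _ _ ?_)) ?_ <;> decide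
    have hy2 : swap (1 : Fin 5) 2 * swap 2 3 ∈ C := by
      refine key _ (T.mul_mem (hno _ _ ?_) (hno _ _ ?_)) ?_ <;> decide
    have := hcomm _ hy1 _ hy2
    revert this
    decide

lemma isSwap_of (s : Equiv.Perm (Fin 5)) (h2 : s ^ 2 = 1) (h1 : s ≠ 1) {i j : Fin 5}
    (hij : i ≠ j) (hi : s i = i) (hj : s j = j) : s.IsSwap := by
  rw [← Equiv.Perm.card_support_eq_two]
  have h3 := Equiv.Perm.two_dvd_card_support h2
  have h4 : s.support ⊆ ({i, j} : Finset (Fin 5))ᶜ := by
    intro x hx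
    rw [Equiv.Perm.mem_support] at hx
    rw [Finset.mem_compl, Finset.mem_insert, Finset.mem_singleton]
    rintro (rfl | rfl)
    · exact hx hi
    · exact hx hj
  have h5 : s.support.card ≤ 3 := (Finset.card_le_card h4).trans (by
    rw [Finset.card_compl, Finset.card_pair hij, Fintype.card_fin])
  have h6 : s.support.card ≠ 0 := by
    rw [Ne, Finset.card_eq_zero, Equiv.Perm.support_eq_empty_iff]
    exact h1
  omega

lemma moved_ge {G : Type} [Group G] {U V : Subgroup G} (hUV : U ≤ V) (c : G) (x : G ⧸ V)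
    (hx : c • x ≠ x) [Finite (G ⧸ U)] :
    U.relIndex V ≤ Nat.card {y : G ⧸ U // c • y ≠ y} := by
  let e := Subgroup.quotientEquivProdOfLE hUV
  let π : G ⧸ U → G ⧸ V := Subgroup.quotientMapOfLE hUV
  have h1 : ∀ y, (e y).1 = π y := by
    intro y
    induction y using QuotientGroup.induction_on with
    | H q => rfl
  have h2 : ∀ y, π (c • y) = c • π y := by
    intro y
    induction y using QuotientGroup.induction_on with
    | H q => rfl
  let F : V ⧸ U.subgroupOf V → {y : G ⧸ U // c • y ≠ y} := fun w => ⟨e.symm (x, w), fun h => by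
    apply hx
    have h3 : π (e.symm (x, w)) = x := by
      rw [← h1, e.apply_symm_apply]
    rw [← h3, ← h2, h]⟩
  have hF : Function.Injective F := by
    intro w w' h
    have h3 := e.symm.injective (congrArg Subtype.val h)
    exact congrArg Prod.snd h3
  exact Nat.card_le_card_of_injective F hF

/-- The subgroups of finite quotients of `G` which are extensions of a `p`-group by a cyclic group have
many cosets which are moved by `c`. -/
theorem many_moved {G : Type} [Group G] {A : Type} [CommGroup A] [Finite A] {fa : G →* A}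
    (hfa : Function.Surjective fa) {fb : G →* Equiv.Perm (Fin 5)}
    (hfb : Function.Surjective fb) {c : G} (hc : (fb c).IsSwap) {n : ℕ}
    (hA : ∀ p : ℕ, p.Prime → ∀ T : Subgroup A, CycHyp p T → 120 * n ≤ T.index)
    {M : Subgroup G} [M.Normal] (hMa : M ≤ fa.ker) (hMb : M ≤ fb.ker) [Finite (G ⧸ M)]
    {p : ℕ} (hp : p.Prime) {K : Subgroup (G ⧸ M)} (hK : CycHyp p K) :
    n ≤ Nat.card {y : G ⧸ K.comap (QuotientGroup.mk' M) // c • y ≠ y} := by
  set U := K.comap (QuotientGroup.mk' M) with hU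
  have hmap : ∀ {H : Type} [Group H] (f : G →* H), M ≤ f.ker → CycHyp p (U.map f) := by
    intro H _ f hf
    have h1 : U.map f = K.map (QuotientGroup.lift M f hf) := by
      ext y
      constructor
      · rintro ⟨g, hg, rfl⟩
        exact ⟨QuotientGroup.mk' M g, hg, rfl⟩
      · rintro ⟨q, hq, rfl⟩
        obtain ⟨g, rfl⟩ := QuotientGroup.mk'_surjective M q
        exact ⟨g, hq, rfl⟩
    rw [h1]
    exact cycHyp_map _ hK
  obtain ⟨a, b, hab, hn⟩ := exists_swap_not_mem hp (hmap fb hMb)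
  obtain ⟨a', b', hab', hs⟩ := hc
  obtain ⟨σ, hσ⟩ := isConj_iff.mp (Equiv.Perm.isConj_swap hab' hab)
  obtain ⟨g, rfl⟩ := hfb σ
  set V := (U.map fb).comap fb with hV
  have hUV : U ≤ V := Subgroup.le_comap_map _ _
  have hgV : g * c * g⁻¹ ∉ V := by
    intro h
    apply hn
    rw [← hσ, ← hs, ← map_inv, ← map_mul, ← map_mul]
    exact h
  have hMU : M ≤ U := by
    intro x hx
    show QuotientGroup.mk' M x ∈ K
    have h1 : QuotientGroup.mk' M x = 1 := by
      rw [← MonoidHom.mem_ker, QuotientGroup.ker_mk']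
      exact hx
    rw [h1]
    exact K.one_mem
  have hMf : M.FiniteIndex := Subgroup.finiteIndex_of_finite_quotient
  have hUf : U.FiniteIndex := Subgroup.finiteIndex_of_le hMU
  have hfinU : Finite (G ⧸ U) := Subgroup.finite_quotient_of_finiteIndex
  have hmoved : c • ((g⁻¹ : G) : G ⧸ V) ≠ ((g⁻¹ : G) : G ⧸ V) := by
    intro h
    have h1 : ((c * g⁻¹ : G) : G ⧸ V) = ((g⁻¹ : G) : G ⧸ V) := h
    have h2 := QuotientGroup.eq.1 h1.symm
    apply hgV
    have h3 : g⁻¹⁻¹ * (c * g⁻¹) = g * c * g⁻¹ := by group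
    rwa [h3] at h2
  have h1 := moved_ge hUV c _ hmoved
  refine le_trans ?_ h1
  have h2 : U.relIndex V * V.index = U.index := Subgroup.relIndex_mul_index hUV
  have h3 : V.index ≤ 120 := by
    rw [hV, Subgroup.index_comap_of_surjective _ hfb]
    have h4 : (U.map fb).index ∣ Nat.card (Equiv.Perm (Fin 5)) := Subgroup.index_dvd_card _
    have h5 : Nat.card (Equiv.Perm (Fin 5)) = 120 := by
      rw [Nat.card_perm, Nat.card_fin]
      rfl
    rw [h5] at h4
    exact Nat.le_of_dvd (by norm_num) h4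
  have h4 : 120 * n ≤ U.index := by
    refine (hA p hp _ (hmap fa hMa)).trans ?_
    rw [← Subgroup.index_comap_of_surjective _ hfa]
    exact Nat.le_of_dvd (Nat.pos_of_ne_zero hUf.index_ne_zero)
      (Subgroup.index_dvd_of_le (Subgroup.le_comap_map _ _))
  have h5 : 120 * n ≤ 120 * U.relIndex V := by
    calc 120 * n ≤ U.index := h4
      _ = U.relIndex V * V.index := h2.symm
      _ ≤ U.relIndex V * 120 := Nat.mul_le_mul_left _ h3
      _ = 120 * U.relIndex V := mul_comm _ _
  omega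

end Pool.Agent.Y240.ST
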