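import Pool.Agent.Y691.ST.Conj
import Pool.Agent.Y240.ST.Grp
import Pool.Agent.H440R3.Quintic

/-!
# Two finite quotients of the absolute Galois group of the rational numbers
-/

set_option autoImplicit false

namespace Pool.Agent.Y240.ST

open Pool.Agent.Y691.ST Pool.Agent.Y144.DL

lemma isOpen_of_le' {N U : Subgroup GalQ} (hN : IsOpen (N : Set GalQ)) (h : N ≤ U) :
    IsOpen (U : Set GalQ) := Subgroup.isOpen_mono h hN

lemma exists_order {q m : ℕ} [hq : Fact q.Prime] (hm : m ∣ q - 1) :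
    ∃ h : (ZMod q)ˣ, orderOf h = m := by
  obtain ⟨g, hg⟩ := IsCyclic.exists_ofOrder_eq_natCard (α := (ZMod q)ˣ)
  rw [Nat.card_eq_fintype_card, ZMod.card_units] at hg
  obtain ⟨k, hk⟩ := hm
  have hq1 : q - 1 ≠ 0 := by
    have := hq.out.two_le
    omega
  have hk0 : k ≠ 0 := by
    rintro rfl
    rw [mul_zero] at hk
    exact hq1 hk
  refine ⟨g ^ k, ?_⟩
  rw [orderOf_pow_of_dvd hk0 (by rw [hg, hk]; exact dvd_mul_left _ _), hg, hk,
    Nat.mul_div_cancel _ (Nat.pos_of_ne_zero hk0)]

/-- in the product of two groups with elements of order `m` -/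
lemma index_ge_prod {A B : Type} [CommGroup A] [Finite A] [CommGroup B] [Finite B] {m p : ℕ}
    (hm : 0 < m) (hcop : Nat.Coprime p m) {a : A} {b : B} (ha : orderOf a = m)
    (hb : orderOf b = m) {T : Subgroup (A × B)} (hT : CycHyp p T) : m ≤ T.index := by
  refine index_ge hm hcop ((Subgroup.zpowers a).prod (Subgroup.zpowers b)) ?_ ?_ hT
  · rintro ⟨x, y⟩ hxy
    obtain ⟨hx, hy⟩ := Subgroup.mem_prod.mp hxy
    obtain ⟨i, hi⟩ := Subgroup.mem_zpowers_iff.mp hx
    obtain ⟨j, hj⟩ := Subgroup.mem_zpowers_iff.mp hy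
    have h1 : x ^ m = 1 := by
      change a ^ i = x at hi
      rw [← hi, ← zpow_natCast, ← zpow_mul, mul_comm, zpow_mul, zpow_natCast, ← ha,
        pow_orderOf_eq_one, one_zpow]
    have h2 : y ^ m = 1 := by
      change b ^ j = y at hj
      rw [← hj, ← zpow_natCast, ← zpow_mul, mul_comm, zpow_mul, zpow_natCast, ← hb,
        pow_orderOf_eq_one, one_zpow]
    exact Prod.ext h1 h2
  · rw [Nat.card_congr (Subgroup.prodEquiv _ _).toEquiv, Nat.card_prod, Nat.card_zpowers,
      Nat.card_zpowers, ha, hb]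

/-- abelian quotients in which the subgroups which are extensions of a `p`-group by a cyclic group have
large index -/
theorem exists_fa (n : ℕ) : ∃ (A : Type) (_ : CommGroup A) (_ : Finite A) (fa : GalQ →* A),
    Function.Surjective fa ∧ IsOpen (fa.ker : Set GalQ) ∧
    ∀ p : ℕ, p.Prime → ∀ T : Subgroup A, CycHyp p T → n ≤ T.index := by
  obtain ⟨q₁, hq₁, -, h₁⟩ := Nat.exists_prime_gt_modEq_one (k := 6 ^ n) 1 (by positivity)
  obtain ⟨q₂, hq₂, hlt, h₂⟩ := Nat.exists_prime_gt_modEq_one (k := 6 ^ n) q₁ (by positivity)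
  have := Fact.mk hq₁
  have := Fact.mk hq₂
  have hne : NeZero (q₁ * q₂) := ⟨Nat.mul_ne_zero hq₁.ne_zero hq₂.ne_zero⟩
  have hcop : q₁.Coprime q₂ := (Nat.coprime_primes hq₁ hq₂).mpr hlt.ne
  obtain ⟨ζ, hζ⟩ := HasEnoughRootsOfUnity.exists_primitiveRoot Qbar (q₁ * q₂)
  let E := IntermediateField.adjoin ℚ {ζ}
  have hE : IsCyclotomicExtension {q₁ * q₂} ℚ E :=
    hζ.intermediateField_adjoin_isCyclotomicExtension ℚ
  have hgal : IsGalois ℚ E := IsCyclotomicExtension.isGalois {q₁ * q₂} ℚ E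
  have hfd : FiniteDimensional ℚ E := IsCyclotomicExtension.finiteDimensional {q₁ * q₂} ℚ E
  let e₁ : Gal(E/ℚ) ≃* (ZMod (q₁ * q₂))ˣ := IsCyclotomicExtension.autEquivPow E
    (Polynomial.cyclotomic.irreducible_rat (NeZero.pos (q₁ * q₂)))
  let e₂ : (ZMod (q₁ * q₂))ˣ ≃* (ZMod q₁)ˣ × (ZMod q₂)ˣ :=
    (Units.mapEquiv (ZMod.chineseRemainder hcop).toMulEquiv).trans MulEquiv.prodUnits
  let r : GalQ →* Gal(E/ℚ) := AlgEquiv.restrictNormalHom E
  let fa : GalQ →* (ZMod q₁)ˣ × (ZMod q₂)ˣ := (e₁.trans e₂).toMonoidHom.comp r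
  refine ⟨(ZMod q₁)ˣ × (ZMod q₂)ˣ, inferInstance, inferInstance, fa, ?_, ?_, ?_⟩
  · exact (e₁.trans e₂).surjective.comp (AlgEquiv.restrictNormalHom_surjective _)
  · refine isOpen_of_le' (IntermediateField.fixingSubgroup_isOpen E) ?_
    intro g hg
    have h1 : r g = 1 := by
      ext x
      have h2 : algebraMap E Qbar (r g x) = g (algebraMap E Qbar x) :=
        AlgEquiv.restrictNormal_commutes g E x
      have h3 : g (algebraMap E Qbar x) = algebraMap E Qbar x :=
        (IntermediateField.mem_fixingSubgroup_iff E g).mp hg x x.2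
      exact h2.trans h3
    show (e₁.trans e₂) (r g) = 1
    rw [h1, map_one]
  · intro p hp T hT
    have key : ∀ l : ℕ, l.Prime → l ∣ 6 → p ≠ l → n ≤ T.index := by
      intro l hl hl6 hpl
      have hd : l ^ n ∣ 6 ^ n := pow_dvd_pow_of_dvd hl6 n
      have hd₁ : l ^ n ∣ q₁ - 1 := hd.trans ((Nat.modEq_iff_dvd' hq₁.one_lt.le).mp h₁.symm)
      have hd₂ : l ^ n ∣ q₂ - 1 := hd.trans ((Nat.modEq_iff_dvd' hq₂.one_lt.le).mp h₂.symm)
      obtain ⟨a, ha⟩ := exists_order hd₁
      obtain ⟨b, hb⟩ := exists_order hd₂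
      have h3 := index_ge_prod (pow_pos hl.pos n)
        (((Nat.coprime_primes hp hl).mpr hpl).pow_right n) ha hb hT
      exact (Nat.lt_pow_self hl.one_lt).le.trans h3
    by_cases h2 : p = 2
    · exact key 3 Nat.prime_three (by norm_num) (by rw [h2]; norm_num)
    · exact key 2 Nat.prime_two (by norm_num) h2

section quintic

open Pool.Agent.H440R3

/-- an embedding of the splitting field of the quintic -/
noncomputable def jj : KK →ₐ[ℚ] Qbar := IsAlgClosed.lift

/-- the roots of the quintic -/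
noncomputable def β (i : Fin 5) : Qbar := jj (α i)

lemma β_inj : Function.Injective β := fun _ _ h => α_inj (jj.toRingHom.injective h)

lemma prod_map {F : Type*} [CommRing F] (f : KK →+* F) (z : F) :
    z ^ 5 - 25 * z + 5 = ∏ i, (z - f (α i)) := by
  have h := congrArg (Polynomial.map f) Phi_eq_prod
  rw [map_Phi, Polynomial.map_prod] at h
  have h2 := congrArg (Polynomial.eval z) h
  rw [eval_Phi, Polynomial.eval_prod] at h2
  simpa using h2

lemma exists_root (t : Qbar) (ht : t ^ 5 - 25 * t + 5 = 0) : ∃ i, t = β i := by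
  have h := prod_map jj.toRingHom t
  rw [ht] at h
  obtain ⟨i, -, hi⟩ := Finset.prod_eq_zero_iff.mp h.symm
  exact ⟨i, sub_eq_zero.mp hi⟩

lemma β_root (i : Fin 5) : (β i) ^ 5 - 25 * (β i) + 5 = 0 := by
  have h := congrArg jj (α_root i)
  rw [map_add, map_sub, map_mul, map_pow, map_ofNat, map_ofNat, map_zero] at h
  exact h

lemma exists_act (g : GalQ) (i : Fin 5) : ∃ k, g (β i) = β k := by
  refine exists_root _ ?_
  have h := congrArg g (β_root i)
  rw [map_add, map_sub, map_mul, map_pow, map_ofNat, map_ofNat, map_zero] at h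
  exact h

/-- the action on the roots -/
noncomputable def act (g : GalQ) (i : Fin 5) : Fin 5 := (exists_act g i).choose

lemma act_spec (g : GalQ) (i : Fin 5) : g (β i) = β (act g i) := (exists_act g i).choose_spec

/-- the homomorphism to the symmetric group -/
noncomputable def fb : GalQ →* Equiv.Perm (Fin 5) := MonoidHom.toHomPerm
  { toFun := fun g => act g
    map_one' := by
      funext i
      apply β_inj
      rw [← act_spec]
      rfl
    map_mul' := by
      intro g h
      funext i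
      apply β_inj
      rw [← act_spec]
      show g (h (β i)) = β (act g (act h i))
      rw [act_spec h, act_spec g] }

lemma fb_spec (g : GalQ) (i : Fin 5) : g (β i) = β (fb g i) := act_spec g i

lemma fb_surjective : Function.Surjective fb := by
  intro π
  obtain ⟨g₀, hg₀⟩ := exists_gal π
  let _ : Algebra KK Qbar := jj.toRingHom.toAlgebra
  have : IsScalarTower ℚ KK Qbar := IsScalarTower.of_algebraMap_eq fun x => (jj.commutes x).symm
  refine ⟨AlgEquiv.liftNormal g₀ Qbar, ?_⟩
  ext i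
  congr 1
  apply β_inj
  rw [← fb_spec]
  have h := AlgEquiv.liftNormal_commutes g₀ Qbar (α i)
  rw [hg₀] at h
  exact h

lemma fb_open : IsOpen (fb.ker : Set GalQ) := by
  let E := jj.fieldRange
  have hfd : FiniteDimensional ℚ E := LinearMap.finiteDimensional_range jj.toLinearMap
  refine isOpen_of_le' (IntermediateField.fixingSubgroup_isOpen E) ?_
  intro g hg
  rw [MonoidHom.mem_ker]
  ext i
  congr 1
  apply β_inj
  rw [← fb_spec]
  exact (IntermediateField.mem_fixingSubgroup_iff E g).mp hg (β i) ⟨α i, rfl⟩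

lemma fb_swap {c : GalQ} (hc : IsConjugation c) : (fb c).IsSwap := by
  classical
  obtain ⟨φ, hφ⟩ := hc
  have hfix : ∀ x : ℝ, x ^ 5 - 25 * x + 5 = 0 → ∃ i, φ (β i) = (x : ℂ) ∧ fb c i = i := by
    intro x hx
    have h := prod_map (φ.comp jj.toRingHom) (x : ℂ)
    have h1 : (x : ℂ) ^ 5 - 25 * (x : ℂ) + 5 = 0 := by exact_mod_cast congrArg Complex.ofReal hx
    rw [h1] at h
    obtain ⟨i, -, hi⟩ := Finset.prod_eq_zero_iff.mp h.symm
    have h2 : φ (β i) = (x : ℂ) := (sub_eq_zero.mp hi).symm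
    refine ⟨i, h2, ?_⟩
    apply β_inj
    rw [← fb_spec]
    exact fixed_of_im hφ (by rw [h2]; exact Complex.ofReal_im x)
  obtain ⟨x, y, hxy, hx, hy⟩ := real_roots_Phi_ge_aux
  rw [aeval_Phi] at hx hy
  obtain ⟨i, hi1, hi2⟩ := hfix x hx
  obtain ⟨j, hj1, hj2⟩ := hfix y hy
  refine isSwap_of (fb c) ?_ ?_ (i := i) (j := j) ?_ hi2 hj2
  · rw [pow_two, ← map_mul, conj_sq hφ, map_one]
  · intro h1
    -- five real roots
    have him : ∀ k, (φ (β k)).im = 0 := by
      intro k
      refine fixed_im hφ ?_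
      rw [fb_spec, h1]
      rfl
    have hre : ∀ k, φ (β k) = (((φ (β k)).re : ℝ) : ℂ) := fun k =>
      Complex.ext rfl (by rw [him k, Complex.ofReal_im])
    have hroot : ∀ k, (φ (β k)).re ∈ (Φ ℚ).rootSet ℝ := by
      intro k
      rw [Polynomial.mem_rootSet]
      refine ⟨monic_Phi.ne_zero, ?_⟩
      rw [aeval_Phi]
      have h2 := congrArg φ (β_root k)
      simp only [map_add, map_sub, map_mul, map_pow, map_ofNat, map_zero] at h2
      rw [hre k] at h2
      exact_mod_cast h2
    have hinj : Function.Injective fun k : Fin 5 => (⟨(φ (β k)).re, hroot k⟩ :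
        (Φ ℚ).rootSet ℝ) := by
      intro k k' h
      apply β_inj
      apply φ.injective
      have h5 : (φ (β k)).re = (φ (β k')).re := congrArg Subtype.val h
      rw [hre k, hre k', h5]
    have h3 : Nat.card (Fin 5) ≤ Nat.card ((Φ ℚ).rootSet ℝ) :=
      Nat.card_le_card_of_injective _ hinj
    have h4 := real_roots_Phi_le
    rw [← Nat.card_eq_fintype_card] at h4
    rw [Nat.card_fin] at h3
    omega
  · rintro rfl
    rw [hi1] at hj1
    exact hxy (Complex.ofReal_injective hj1)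

end quintic

end Pool.Agent.Y240.ST
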