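import Pool.Agent.Y691.ST.PermFin
import Pool.Agent.Y691.ST.Prof

/-!
# Characters of profinite groups and subgroups which are extensions of a `p`-group by a cyclic group
-/

set_option autoImplicit false

namespace Pool.Agent.Y240.ST

open Pool.Agent.Y691.ST Pool.Agent.Y144.DL

variable {Q : Type} [Group Q] [Finite Q]

/-- the passage from the hyperelementary subgroups to the group -/
theorem glueC {p : ℕ} {θ : Q → ℂ} (hθ : ∀ g x, θ (x⁻¹ * g * x) = θ g)
    (Y : AddSubgroup (Q → ℂ))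
    (hT : ∀ T : Subgroup Q, CycHyp p T → avg T ⊤ (ext T (1 : T →* ℂˣ) * θ) ∈ Y) :
    ∀ f ∈ AddSubgroup.closure (FG (CycHyp (G := Q) p)), (fun g => (f g : ℂ) * θ g) ∈ Y := by
  classical
  have := Fintype.ofFinite Q
  intro f hf
  induction hf using AddSubgroup.closure_induction with
  | mem f hf =>
    obtain ⟨X, _, _, hX, hXf⟩ := hf
    let F : X → Q → ℂ := fun x g => if g • x = x then θ g else 0
    have hsum : (fun g => (f g : ℂ) * θ g) = ∑ x : X, F x := by
      funext g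
      rw [Finset.sum_apply]
      show (f g : ℂ) * θ g = ∑ x : X, if g • x = x then θ g else 0
      rw [← Finset.sum_filter, Finset.sum_const, hXf, nsmul_eq_mul]
      congr 1
      rw [Nat.card_eq_fintype_card, Fintype.card_subtype]
      push_cast
      rfl
    rw [hsum]
    refine sum_orbits ⊤ F ?_ Y _ Finset.univ le_rfl (fun _ _ _ _ => Finset.mem_univ _) ?_
    · intro h _ x g
      have h3 : (g • h • x = h • x) ↔ (h⁻¹ * g * h) • x = x := by
        rw [mul_smul, mul_smul, inv_smul_eq_iff]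
      show (if g • h • x = h • x then θ g else 0) = if (h⁻¹ * g * h) • x = x then θ (h⁻¹ * g * h) else 0
      simp only [h3, hθ]
    · intro x _
      let T := MulAction.stabilizer Q x
      have hT' : (⊤ : Subgroup Q) ⊓ MulAction.stabilizer Q x = T := top_inf_eq _
      rw [hT']
      have hF : F x = ext T (1 : T →* ℂˣ) * θ := by
        funext g
        rw [Pi.mul_apply]
        show (if g • x = x then θ g else 0) = _
        by_cases hg : g • x = x
        · rw [if_pos hg, ext_mem T _ (show g ∈ T from hg), MonoidHom.one_apply, Units.val_one, one_mul]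
        · rw [if_neg hg, ext_not_mem T _ (show g ∉ T from hg), zero_mul]
      rw [hF]
      exact hT T (hX x)
  | zero =>
    have h3 : (fun g => (((0 : Q → ℤ) g : ℤ) : ℂ) * θ g) = 0 := by
      funext g
      simp
    rw [h3]
    exact zero_mem _
  | add a b _ _ ha hb =>
    have h3 : (fun g => (((a + b : Q → ℤ) g : ℤ) : ℂ) * θ g) =
        (fun g => (a g : ℂ) * θ g) + fun g => (b g : ℂ) * θ g := by
      funext g
      simp only [Pi.add_apply, Int.cast_add]
      ring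
    rw [h3]
    exact add_mem ha hb
  | neg a _ ha =>
    have h3 : (fun g => (((-a : Q → ℤ) g : ℤ) : ℂ) * θ g) = -fun g => (a g : ℂ) * θ g := by
      funext g
      simp only [Pi.neg_apply, Int.cast_neg]
      ring
    rw [h3]
    exact neg_mem ha

theorem fin_cyc {M : Subgroup Q} [M.Normal] {A : Type} [CommGroup A] (Y : (Q → ℂ) → A)
    (hY : ∀ θ θ', IsChar θ → IsChar θ' → Y (θ + θ') = Y θ * Y θ')
    {θ : Q ⧸ M → ℂ} (hθ : IsChar θ) {p : ℕ} (hp : p.Prime)
    (hG : ∀ (K : Subgroup Q) (χ : K →* ℂˣ), CycHyp p K → Y (ind K χ) = 1) :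
    ∃ l : ℕ, ¬ p ∣ l ∧ Y (θ ∘ QuotientGroup.mk' M) ^ l = 1 := by
  obtain ⟨l, hl, hlR⟩ := banaschewski_p (AddSubgroup.closure (FG (CycHyp (G := Q) p)))
    (closure_FG_mul fun H K hH hK => cycHyp_mono hH inf_le_left) p hp (fun x => by
      obtain ⟨f, hf, h⟩ := exists_FG_cyc x p hp
      exact ⟨f, AddSubgroup.subset_closure hf, h⟩)
  refine ⟨l.natAbs, fun h => hl (Int.natCast_dvd.mpr h), ?_⟩
  have hθ' := isChar_comp (M := M) hθ
  refine pow_of_mem Y hY hθ' (glueC (p := p) (fun g x => isChar_conj hθ' g x) (span1 Y) ?_ _ hlR)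
  intro T hT
  refine avg_mem_of_lin (M := M) (span1 Y) ?_ _ (restrict_mem M hp (hyp_of_cycHyp hT) hθ)
  intro K χ hK hχ
  exact mem_span1 Y (hG K χ (cycHyp_mono hT hK))

/-- **The theorem for profinite groups.** -/
theorem prof_cyc {G : Type} [Group G] [TopologicalSpace G] [IsTopologicalGroup G]
    [CompactSpace G] {d : (G → ℂ) → ℂˣ}
    (hadd : ∀ θ θ' : G → ℂ, IsArtin θ → IsArtin θ' → d (θ + θ') = d θ * d θ')
    {M₁ : Subgroup G} [hM₁n : M₁.Normal] (hM₁ : IsOpen (M₁ : Set G))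
    (good : ∀ (N : Subgroup G) [N.Normal], IsOpen (N : Set G) → N ≤ M₁ → ∀ p : ℕ, p.Prime →
      ∀ K : Subgroup (G ⧸ N), CycHyp p K → ∀ χ : (K.comap (QuotientGroup.mk' N)) →* ℂˣ,
      IsOpenLinear (K.comap (QuotientGroup.mk' N)) χ →
      d (indF (K.comap (QuotientGroup.mk' N)) χ) = 1)
    {θ : G → ℂ} (hθ : IsArtin θ) : d θ = 1 := by
  classical
  obtain ⟨n, ρ, hρ, rfl⟩ := hθ
  let N : Subgroup G := ρ.ker
  have hN : IsOpen (N : Set G) := hρ
  have hNn : N.Normal := inferInstance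
  let N₂ : Subgroup G := N ⊓ M₁
  have hN₂ : IsOpen (N₂ : Set G) := hN.inter hM₁
  have hN₂n : N₂.Normal := inferInstance
  have hle : N₂ ≤ ρ.ker := inf_le_left
  have hfin : Finite (G ⧸ N₂) := Subgroup.quotient_finite_of_isOpen N₂ hN₂
  set π := QuotientGroup.mk' N₂ with hπ
  have hsurj : Function.Surjective π := QuotientGroup.mk'_surjective N₂
  let M : Subgroup (G ⧸ N₂) := N.map π
  have hMn : M.Normal := hNn.map π hsurj
  let ρ₁ : G ⧸ N₂ →* Matrix (Fin n) (Fin n) ℂ := QuotientGroup.lift N₂ ρ hle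
  have hρ2 : M ≤ ρ₁.ker := by
    rintro _ ⟨g, hg, rfl⟩
    exact hg
  let ρ₂ : (G ⧸ N₂) ⧸ M →* Matrix (Fin n) (Fin n) ℂ := QuotientGroup.lift M ρ₁ hρ2
  let θ₂ : (G ⧸ N₂) ⧸ M → ℂ := fun g => (ρ₂ g).trace
  have hθ₂ : IsChar θ₂ := ⟨n, ρ₂, rfl⟩
  let Y : (G ⧸ N₂ → ℂ) → ℂˣ := fun f => d (f ∘ π)
  have hY : ∀ θ θ', IsChar θ → IsChar θ' → Y (θ + θ') = Y θ * Y θ' := by
    intro θ θ' h h'
    exact hadd _ _ (isArtin_comp hN₂ h) (isArtin_comp hN₂ h')
  have hYθ : Y (θ₂ ∘ QuotientGroup.mk' M) = d (fun g => (ρ g).trace) := rfl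
  have key : ∀ p : ℕ, p.Prime → ∃ l : ℕ, ¬ p ∣ l ∧ d (fun g => (ρ g).trace) ^ l = 1 := by
    intro p hp
    rw [← hYθ]
    refine fin_cyc Y hY hθ₂ hp fun K χ hK => ?_
    show d (ind K χ ∘ π) = 1
    rw [hπ, ind_infl]
    exact good N₂ hN₂ inf_le_right p hp K hK _ (isOpenLinear_infl hN₂ K χ)
  rw [← orderOf_eq_one_iff]
  by_contra h4
  obtain ⟨p, hp, hpd⟩ := Nat.exists_prime_and_dvd h4
  obtain ⟨m, hm, hm1⟩ := key p hp
  exact hm (hpd.trans (orderOf_dvd_of_pow_eq_one hm1))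

end Pool.Agent.Y240.ST
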