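import Pool.Agent.Y240.ST.Gal
import Pool.Agent.Y240.ST.Prof

/-!
# Additive invariants of Artin characters and number fields with many complex places
-/

set_option autoImplicit false

namespace Pool.Agent.Y240.ST

open Pool.Agent.Y691.ST Pool.Agent.Y144.DL

/-- An additive invariant of Artin characters which is trivial on the characters induced from the linear
characters of the open subgroups with at least `n` cosets moved by `c` is trivial. -/
theorem many_places {c : GalQ} (hc : IsConjugation c) (n : ℕ) {d : (GalQ → ℂ) → ℂˣ}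
    (hadd : ∀ θ θ' : GalQ → ℂ, IsArtin θ → IsArtin θ' → d (θ + θ') = d θ * d θ')
    (good : ∀ (U : Subgroup GalQ) (χ : U →* ℂˣ), IsOpenLinear U χ →
      n ≤ Nat.card {x : GalQ ⧸ U // c • x ≠ x} → d (indF U χ) = 1)
    {θ : GalQ → ℂ} (hθ : IsArtin θ) : d θ = 1 := by
  obtain ⟨A, _, _, fa, hfa, hfao, hA⟩ := exists_fa (120 * n)
  have hM : IsOpen ((fa.ker ⊓ fb.ker : Subgroup GalQ) : Set GalQ) := hfao.inter fb_open
  refine prof_cyc hadd (M₁ := fa.ker ⊓ fb.ker) hM ?_ hθ
  intro N _ hN hNM p hp K hK χ hχ
  have : Finite (GalQ ⧸ N) := Subgroup.quotient_finite_of_isOpen N hN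
  exact good _ χ hχ (many_moved hfa fb_surjective (fb_swap hc) hA (hNM.trans inf_le_left)
    (hNM.trans inf_le_right) hp hK)

end Pool.Agent.Y240.ST
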