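import Pool.Agent.Y240.ST.Main

/-!
# Cosets and embeddings
-/

set_option autoImplicit false

namespace Pool.Agent.Y240.ST

open Pool.Agent.Y691.ST

/-- The number of embeddings `ψ` of the fixed field of `U` in `ℂ` with `conj ∘ ψ ≠ ψ`; this is twice the
number of complex places of the fixed field. -/
noncomputable def nonReal (U : Subgroup GalQ) : ℕ :=
  Nat.card {ψ : IntermediateField.fixedField U →+* ℂ // ∃ y, (starRingEnd ℂ) (ψ y) ≠ ψ y}

lemma moved_le_nonReal {c : GalQ} {φ : Qbar →+* ℂ} (hφ : ∀ x, φ (c x) = (starRingEnd ℂ) (φ x))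
    {U : Subgroup GalQ} (hU : IsOpen (U : Set GalQ)) :
    Nat.card {x : GalQ ⧸ U // c • x ≠ x} ≤ nonReal U := by
  have hcl : IsClosed (U : Set GalQ) := Subgroup.isClosed_of_isOpen U hU
  have hfix : (IntermediateField.fixedField U).fixingSubgroup = U :=
    InfiniteGalois.fixingSubgroup_fixedField (⟨U, hcl⟩ : ClosedSubgroup GalQ)
  have hfd : FiniteDimensional ℚ (IntermediateField.fixedField U) := by
    refine (InfiniteGalois.isOpen_iff_finite _).mp ?_
    rw [hfix]
    exact hU
  have hnf : NumberField (IntermediateField.fixedField U) :=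
    { to_charZero := inferInstance, to_finiteDimensional := hfd }
  have hmem : ∀ g : GalQ, (∀ y ∈ IntermediateField.fixedField U, g y = y) → g ∈ U := by
    intro g hg
    rw [← hfix, IntermediateField.mem_fixingSubgroup_iff]
    exact hg
  let F : {x : GalQ ⧸ U // c • x ≠ x} →
      {ψ : IntermediateField.fixedField U →+* ℂ // ∃ y, (starRingEnd ℂ) (ψ y) ≠ ψ y} := fun x =>
    ⟨φ.comp ((x.1.out : GalQ).toAlgHom.toRingHom.comp
      (algebraMap (IntermediateField.fixedField U) Qbar)), by
      by_contra hno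
      push Not at hno
      apply x.2
      have h1 : (x.1.out : GalQ)⁻¹ * (c * x.1.out) ∈ U := by
        refine hmem _ fun y hy => ?_
        have h2 : φ (c ((x.1.out : GalQ) y)) = φ ((x.1.out : GalQ) y) := by
          rw [hφ]
          exact hno ⟨y, hy⟩
        have h3 := φ.injective h2
        show (x.1.out : GalQ)⁻¹ (c ((x.1.out : GalQ) y)) = y
        rw [h3]
        exact (x.1.out : GalQ).symm_apply_apply y
      have h4 : (((x.1.out : GalQ) : GalQ) : GalQ ⧸ U) = ((c * x.1.out : GalQ) : GalQ ⧸ U) :=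
        QuotientGroup.eq.2 h1
      calc c • x.1 = c • ((x.1.out : GalQ) : GalQ ⧸ U) := by rw [QuotientGroup.out_eq']
        _ = ((c * x.1.out : GalQ) : GalQ ⧸ U) := rfl
        _ = ((x.1.out : GalQ) : GalQ ⧸ U) := h4.symm
        _ = x.1 := QuotientGroup.out_eq' _⟩
  refine Nat.card_le_card_of_injective F ?_
  intro x x' h
  have h1 : ∀ y : IntermediateField.fixedField U, (x.1.out : GalQ) y = (x'.1.out : GalQ) y := by
    intro y
    apply φ.injective
    exact congrArg (fun ψ => ψ.1 y) h
  have h2 : (x.1.out : GalQ)⁻¹ * x'.1.out ∈ U := by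
    refine hmem _ fun y hy => ?_
    show (x.1.out : GalQ)⁻¹ ((x'.1.out : GalQ) y) = y
    rw [← h1 ⟨y, hy⟩]
    exact (x.1.out : GalQ).symm_apply_apply y
  have h3 : ((x.1.out : GalQ) : GalQ ⧸ U) = ((x'.1.out : GalQ) : GalQ ⧸ U) := QuotientGroup.eq.2 h2
  rw [QuotientGroup.out_eq', QuotientGroup.out_eq'] at h3
  exact Subtype.ext h3

end Pool.Agent.Y240.ST
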